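import Pool.Agent.Helper61.HS.HLA

/-! # Differentiation of the weak equation (packet DEQ of project HS) -/

open Complex Metric Set Filter Topology MeasureTheory
open scoped ContDiff ComplexConjugate ComplexOrder Manifold

namespace Pool.Agent.Helper61.HS

open Pool.Agent.Helper95.Lin Pool.Agent.Helper16.Abund Pool.Agent.Helper92.Orb
  Pool.Agent.Helper10.SP Pool.Agent.Helper36.HS

variable {n : ℕ} {T : Set (Cn n)}

/-- Packet DEQ. -/
theorem deq : S_DEQ := by
  intro n T A hT hA f F₀ F hf hF₀ hF hW a g G₀ G h hg hG₀ hG hh hfg hFG₀ hFG hfh ζ hζ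
  -- test functions
  have t0 : ∀ j, TestC T (cd j ζ) := fun j => tc_dz hζ (j, false)
  have t1 : ∀ k j, TestC T fun y => A y k j * cd j ζ y := fun k j =>
    tc_mul hT (hA k j) (t0 j)
  have t2 : ∀ k j, TestC T fun y => cdb k (fun z => A z k j * cd j ζ z) y := fun k j =>
    tc_dz (t1 k j) (k, true)
  have t3 : ∀ k j, TestC T fun y => dz a (fun z => A z k j) y * cd j ζ y := fun k j =>
    tc_mul hT (dz_contDiffOn hT (hA k j) a) (t0 j)
  have t4 : ∀ k j, TestC T fun y => cdb k (fun z => dz a (fun w => A w k j) z * cd j ζ z) y :=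
    fun k j => tc_dz (t3 k j) (k, true)
  have t5 : ∀ k j, TestC T fun y => A y k j * cd j (dz a ζ) y := fun k j =>
    tc_mul hT (hA k j) (tc_dz (tc_dz hζ a) (j, false))
  have t6 : ∀ k j, TestC T fun y => cdb k (fun z => A z k j * cd j (dz a ζ) z) y := fun k j =>
    tc_dz (t5 k j) (k, true)
  have tξ : TestC T fun y => ∑ k, ∑ j, cdb k (fun z => A z k j * cd j ζ z) y :=
    tc_sum _ fun k _ => tc_sum _ fun j _ => t2 k j
  -- the commutation
  have hcomm : ∀ x ∈ T, dz a (fun y => ∑ k, ∑ j, cdb k (fun z => A z k j * cd j ζ z) y) x =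
      (∑ k, ∑ j, cdb k (fun z => A z k j * cd j (dz a ζ) z) x) +
        ∑ k, ∑ j, cdb k (fun z => dz a (fun w => A w k j) z * cd j ζ z) x := by
    intro x hx
    rw [dz_sum _ fun k _ => dAtOn hT (tc_sum _ fun j _ => t2 k j).1.contDiffOn hx,
      ← Finset.sum_add_distrib]
    refine Finset.sum_congr rfl fun k _ => ?_
    rw [dz_sum _ fun j _ => dAtOn hT (t2 k j).1.contDiffOn hx, ← Finset.sum_add_distrib]
    refine Finset.sum_congr rfl fun j _ => ?_
    have e1 : dz a (cdb k fun z => A z k j * cd j ζ z) x =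
        cdb k (dz a fun z => A z k j * cd j ζ z) x :=
      dz_comm hT (t1 k j).1.contDiffOn a (k, true) hx
    have e2 : cdb k (dz a fun z => A z k j * cd j ζ z) x =
        cdb k (fun z => A z k j * cd j (dz a ζ) z + dz a (fun w => A w k j) z * cd j ζ z) x := by
      refine dz_congr_on hT (fun y hy => ?_) hx (k, true)
      have e6 : dz a (fun z => A z k j * cd j ζ z) y =
          A y k j * dz a (cd j ζ) y + cd j ζ y * dz a (fun w => A w k j) y :=
        dz_mul (dAtOn hT (hA k j) hy) (dAtOn hT (t0 j).1.contDiffOn hy) a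
      have e3 : dz a (cd j ζ) y = cd j (dz a ζ) y :=
        dz_comm hT hζ.1.contDiffOn a (j, false) hy
      rw [e6, e3]
      ring
    have e5 : cdb k (fun z => A z k j * cd j (dz a ζ) z + dz a (fun w => A w k j) z * cd j ζ z) x =
        cdb k (fun z => A z k j * cd j (dz a ζ) z) x +
          cdb k (fun z => dz a (fun w => A w k j) z * cd j ζ z) x :=
      cdb_add' (dAtOn hT (t5 k j).1.contDiffOn hx) (dAtOn hT (t3 k j).1.contDiffOn hx) k
    exact e1.trans (e2.trans e5)
  have h1 := hfg _ tξ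
  have tS1 : TestC T fun x => ∑ k, ∑ j, cdb k (fun z => A z k j * cd j (dz a ζ) z) x :=
    tc_sum _ fun k _ => tc_sum _ fun j _ => t6 k j
  have tS2 : TestC T fun x => ∑ k, ∑ j, cdb k (fun z => dz a (fun w => A w k j) z * cd j ζ z) x :=
    tc_sum _ fun k _ => tc_sum _ fun j _ => t4 k j
  have h2 : ∫ x in T, f x * dz a (fun y => ∑ k, ∑ j, cdb k (fun z => A z k j * cd j ζ z) y) x =
      (∫ x in T, f x * ∑ k, ∑ j, cdb k (fun z => A z k j * cd j (dz a ζ) z) x) +
        ∫ x in T, f x * ∑ k, ∑ j, cdb k (fun z => dz a (fun w => A w k j) z * cd j ζ z) x := by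
    rw [← integral_add (l2_test hT hf tS1) (l2_test hT hf tS2)]
    refine setIntegral_congr_fun hT.measurableSet fun x hx => ?_
    show f x * dz a (fun y => ∑ k, ∑ j, cdb k (fun z => A z k j * cd j ζ z) y) x = _
    rw [hcomm x hx, mul_add]
  have h3 := hW _ (tc_dz hζ a)
  have h4 := hFG₀ ζ hζ
  have h5 : ∀ j, ∫ x in T, F j x * cd j (dz a ζ) x = - ∫ x in T, G j x * cd j ζ x := by
    intro j
    have h6 := hFG j _ (tc_dz hζ (j, false))
    have h7 : ∫ x in T, F j x * cd j (dz a ζ) x = ∫ x in T, F j x * dz a (dz (j, false) ζ) x := by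
      refine setIntegral_congr_fun hT.measurableSet fun x hx => ?_
      show F j x * cd j (dz a ζ) x = F j x * dz a (dz (j, false) ζ) x
      rw [dz_comm hT hζ.1.contDiffOn a (j, false) hx]
      rfl
    rw [h7, h6]
    rfl
  have h8 : ∫ x in T, f x * ∑ k, ∑ j, cdb k (fun z => dz a (fun w => A w k j) z * cd j ζ z) x =
      - ∑ k, ∑ j, ∫ x in T, h k x * (dz a (fun w => A w k j) x * cd j ζ x) := by
    have e1 : ∀ x, f x * ∑ k, ∑ j, cdb k (fun z => dz a (fun w => A w k j) z * cd j ζ z) x =
        ∑ k, ∑ j, f x * cdb k (fun z => dz a (fun w => A w k j) z * cd j ζ z) x := by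
      intro x
      rw [Finset.mul_sum]
      exact Finset.sum_congr rfl fun k _ => Finset.mul_sum _ _ _
    rw [integral_congr_ae (Eventually.of_forall e1), integral_finsetSum _ fun k _ =>
      integrable_finsetSum _ fun j _ => l2_test hT hf (t4 k j), ← Finset.sum_neg_distrib]
    refine Finset.sum_congr rfl fun k _ => ?_
    rw [integral_finsetSum _ fun j _ => l2_test hT hf (t4 k j), ← Finset.sum_neg_distrib]
    refine Finset.sum_congr rfl fun j _ => ?_
    exact hfh k _ (t3 k j)
  have h9 : ∀ j, ∫ x in T, (G j x + ∑ k, (- dz a (fun y => A y k j) x) * h k x) * cd j ζ x =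
      (∫ x in T, G j x * cd j ζ x) -
        ∑ k, ∫ x in T, h k x * (dz a (fun w => A w k j) x * cd j ζ x) := by
    intro j
    have e1 : ∀ x, (G j x + ∑ k, (- dz a (fun y => A y k j) x) * h k x) * cd j ζ x =
        G j x * cd j ζ x - ∑ k, h k x * (dz a (fun w => A w k j) x * cd j ζ x) := by
      intro x
      rw [add_mul, Finset.sum_mul, sub_eq_add_neg, ← Finset.sum_neg_distrib]
      congr 1
      refine Finset.sum_congr rfl fun k _ => ?_
      ring
    rw [integral_congr_ae (Eventually.of_forall e1), integral_sub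
      (l2_test hT (hG j) (t0 j))
      (integrable_finsetSum _ fun k _ => l2_test hT (hh k) (t3 k j)),
      integral_finsetSum _ fun k _ => l2_test hT (hh k) (t3 k j)]
  have h10 : ∑ k, ∑ j, ∫ x in T, h k x * (dz a (fun w => A w k j) x * cd j ζ x) =
      ∑ j, ∑ k, ∫ x in T, h k x * (dz a (fun w => A w k j) x * cd j ζ x) := Finset.sum_comm
  simp only [h9, Finset.sum_sub_distrib]
  rw [h2, h3, h4, h8, h10] at h1
  simp only [h5, Finset.sum_neg_distrib] at h1
  linear_combination h1

end Pool.Agent.Helper61.HS
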