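import Pool.Agent.Helper61.HS.HLA

/-! # Localization (packet HCL of project HS) -/

open Complex Metric Set Filter Topology MeasureTheory
open scoped ContDiff ComplexConjugate ComplexOrder Manifold

namespace Pool.Agent.Helper61.HS

open Pool.Agent.Helper95.Lin Pool.Agent.Helper16.Abund Pool.Agent.Helper92.Orb
  Pool.Agent.Helper10.SP Pool.Agent.Helper36.HS

variable {n : ℕ} {T : Set (Cn n)}

theorem hc_base_add {u v : Cn n → ℂ}
    (hu : MemLp u 2 volume ∧ ∃ K, IsCompact K ∧ ∀ x ∉ K, u x = 0)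
    (hv : MemLp v 2 volume ∧ ∃ K, IsCompact K ∧ ∀ x ∉ K, v x = 0) :
    MemLp (fun x => u x + v x) 2 volume ∧ ∃ K, IsCompact K ∧ ∀ x ∉ K, u x + v x = 0 := by
  obtain ⟨h1, K, hK, h2⟩ := hu
  obtain ⟨h1', K', hK', h2'⟩ := hv
  refine ⟨h1.add h1', K ∪ K', hK.union hK', fun x hx => ?_⟩
  rw [mem_union, not_or] at hx
  rw [h2 x hx.1, h2' x hx.2, add_zero]

theorem hc_base {m : ℕ} {u : Cn n → ℂ} (h : HC m u) :
    MemLp u 2 volume ∧ ∃ K, IsCompact K ∧ ∀ x ∉ K, u x = 0 := by
  cases m with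
  | zero => exact h
  | succ m => exact h.1

theorem l2_univ {u : Cn n → ℂ} (h : MemLp u 2 volume) : L2l univ u :=
  fun _ _ _ => h.restrict _

theorem hc_add {m : ℕ} {u v : Cn n → ℂ} (hu : HC m u) (hv : HC m v) :
    HC m fun x => u x + v x := by
  induction m generalizing u v with
  | zero => exact hc_base_add hu hv
  | succ m ih =>
    refine ⟨hc_base_add hu.1 hv.1, fun a => ?_⟩
    obtain ⟨g, hg, hug⟩ := hu.2 a
    obtain ⟨g', hg', hvg'⟩ := hv.2 a
    exact ⟨_, ih hg hg', wd_add isOpen_univ (l2_univ hu.1.1) (l2_univ (hc_base hg).1)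
      (l2_univ hv.1.1) (l2_univ (hc_base hg').1) hug hvg'⟩

theorem hc_of_test (f χ : Cn n → ℂ) (hf : L2l T f) (hχ : TestC T χ) :
    MemLp (fun x => χ x * f x) 2 volume ∧ ∃ K, IsCompact K ∧ ∀ x ∉ K, χ x * f x = 0 := by
  have h0 : ∀ x ∉ tsupport χ, χ x * f x = 0 := fun x hx => by
    rw [image_eq_zero_of_notMem_tsupport hx, zero_mul]
  refine ⟨?_, tsupport χ, hχ.2.1, h0⟩
  have h1 : (fun x => χ x * f x) = (tsupport χ).indicator (fun x => χ x * f x) := by
    funext x
    by_cases hx : x ∈ tsupport χ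
    · rw [indicator_of_mem hx]
    · rw [indicator_of_notMem hx, h0 x hx]
  rw [h1, memLp_indicator_iff_restrict (isClosed_tsupport χ).measurableSet]
  exact l2_mul hχ.1.continuous.continuousOn hf (tsupport χ) hχ.2.2 hχ.2.1

/-- Packet HCL. -/
theorem hcl : S_HCL := by
  intro n T hT m
  induction m with
  | zero => exact fun f χ hf hχ => hc_of_test f χ hf hχ
  | succ m ih =>
    intro f χ hf hχ
    refine ⟨hc_of_test f χ hf.1 hχ, fun a => ?_⟩
    obtain ⟨g, hg, hfg⟩ := hf.2 a
    refine ⟨fun x => χ x * g x + dz a χ x * f x, hc_add (ih g χ hg hχ)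
      (ih f (dz a χ) (hl_of_succ hf) (tc_dz hχ a)), ?_⟩
    intro ζ hζ
    have h1 : TestC T fun x => χ x * ζ x := by
      have := tc_mul hT hζ.1.contDiffOn hχ
      have e : (fun x => ζ x * χ x) = fun x => χ x * ζ x := by
        funext x; ring
      rwa [e] at this
    have h2 : TestC T fun x => dz a χ x * ζ x := by
      have := tc_mul hT hζ.1.contDiffOn (tc_dz hχ a)
      have e : (fun x => ζ x * dz a χ x) = fun x => dz a χ x * ζ x := by
        funext x; ring
      rwa [e] at this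
    have h3 : TestC T fun x => χ x * dz a ζ x := by
      have := tc_mul hT (dz_contDiff hζ.1 a).contDiffOn hχ
      have e : (fun x => dz a ζ x * χ x) = fun x => χ x * dz a ζ x := by
        funext x; ring
      rwa [e] at this
    have h4 := wd_mul_aux hT hχ.1.contDiffOn hζ.1.contDiffOn h1 h2 h3 hf.1 (hl_l2 hg) hfg
    rw [setIntegral_eq_integral_of_forall_compl_eq_zero fun x hx => by
        rw [tc_eq_zero hχ hx, zero_mul, zero_mul],
      setIntegral_eq_integral_of_forall_compl_eq_zero fun x hx => by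
        rw [tc_eq_zero hχ hx, tc_eq_zero (tc_dz hχ a) hx]; ring] at h4
    rw [setIntegral_univ, setIntegral_univ]
    exact h4

end Pool.Agent.Helper61.HS
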