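import Pool.Agent.Helper36.HS.GoalsL
import Pool.Agent.Helper9.SP.ReglA
import Pool.Agent.Helper80.SP.CACC
import Pool.Agent.Helper10.SP.WIRT

/-! # Calculus of weak derivatives (packets HLA, DEQ, HCL of project HS) -/

open Complex Metric Set Filter Topology MeasureTheory
open scoped ContDiff ComplexConjugate ComplexOrder Manifold

namespace Pool.Agent.Helper61.HS

open Pool.Agent.Helper95.Lin Pool.Agent.Helper16.Abund Pool.Agent.Helper92.Orb
  Pool.Agent.Helper10.SP Pool.Agent.Helper36.HS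
open Pool.Agent.Helper9.SP (cd_contDiff cdb_contDiff cd_cs cdb_cs cdb_mul cd_add' cd_sum cd_congr
  cdb_congr)
open Pool.Agent.Helper80.SP (smooth_ext integral_cd)

variable {n : ℕ} {T : Set (Cn n)}

/-! ## The operators `dz` -/

theorem dz_true (l : Fin n) (f : Cn n → ℂ) : dz (l, true) f = cdb l f := rfl

theorem dz_false (l : Fin n) (f : Cn n → ℂ) : dz (l, false) f = cd l f := rfl

theorem cd_mul' {f g : Cn n → ℂ} {x : Cn n} (hf : DifferentiableAt ℝ f x)
    (hg : DifferentiableAt ℝ g x) (l : Fin n) :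
    cd l (fun y => f y * g y) x = f x * cd l g x + g x * cd l f x := by
  unfold cd
  rw [fderiv_fun_mul hf hg]
  simp only [_root_.add_apply, smul_apply, smul_eq_mul]
  ring

theorem cdb_add' {f g : Cn n → ℂ} {x : Cn n} (hf : DifferentiableAt ℝ f x)
    (hg : DifferentiableAt ℝ g x) (l : Fin n) :
    cdb l (fun y => f y + g y) x = cdb l f x + cdb l g x := by
  unfold cdb
  rw [fderiv_fun_add hf hg]
  simp only [_root_.add_apply]
  ring

theorem cdb_sum' {ι : Type*} (s : Finset ι) {f : ι → Cn n → ℂ} {x : Cn n}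
    (hf : ∀ i ∈ s, DifferentiableAt ℝ (f i) x) (l : Fin n) :
    cdb l (fun y => ∑ i ∈ s, f i y) x = ∑ i ∈ s, cdb l (f i) x := by
  unfold cdb
  rw [fderiv_fun_sum hf]
  simp only [sum_apply, Finset.mul_sum, Finset.sum_add_distrib]

theorem dz_mul {f g : Cn n → ℂ} {x : Cn n} (hf : DifferentiableAt ℝ f x)
    (hg : DifferentiableAt ℝ g x) (a : Fin n × Bool) :
    dz a (fun y => f y * g y) x = f x * dz a g x + g x * dz a f x := by
  obtain ⟨l, b⟩ := a
  cases b
  · exact cd_mul' hf hg l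
  · exact cdb_mul hf hg l

theorem dz_add {f g : Cn n → ℂ} {x : Cn n} (hf : DifferentiableAt ℝ f x)
    (hg : DifferentiableAt ℝ g x) (a : Fin n × Bool) :
    dz a (fun y => f y + g y) x = dz a f x + dz a g x := by
  obtain ⟨l, b⟩ := a
  cases b
  · exact cd_add' hf hg l
  · exact cdb_add' hf hg l

theorem dz_sum {ι : Type*} (s : Finset ι) {f : ι → Cn n → ℂ} {x : Cn n}
    (hf : ∀ i ∈ s, DifferentiableAt ℝ (f i) x) (a : Fin n × Bool) :
    dz a (fun y => ∑ i ∈ s, f i y) x = ∑ i ∈ s, dz a (f i) x := by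
  obtain ⟨l, b⟩ := a
  cases b
  · exact cd_sum s hf l
  · exact cdb_sum' s hf l

theorem dz_congr {f g : Cn n → ℂ} {x : Cn n} (h : f =ᶠ[𝓝 x] g) (a : Fin n × Bool) :
    dz a f x = dz a g x := by
  obtain ⟨l, b⟩ := a
  cases b
  · exact cd_congr h l
  · exact cdb_congr h l

theorem dz_congr_on (hT : IsOpen T) {f g : Cn n → ℂ} (h : ∀ x ∈ T, f x = g x) {x : Cn n}
    (hx : x ∈ T) (a : Fin n × Bool) : dz a f x = dz a g x :=
  dz_congr (by filter_upwards [hT.mem_nhds hx] with y hy using h y hy) a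

theorem dz_contDiff {g : Cn n → ℂ} (hg : ContDiff ℝ ∞ g) (a : Fin n × Bool) :
    ContDiff ℝ ∞ (dz a g) := by
  obtain ⟨l, b⟩ := a
  cases b
  · exact cd_contDiff hg l
  · exact cdb_contDiff hg l

theorem dz_contDiffOn (hT : IsOpen T) {g : Cn n → ℂ} (hg : ContDiffOn ℝ ∞ g T)
    (a : Fin n × Bool) : ContDiffOn ℝ ∞ (dz a g) T := by
  obtain ⟨l, b⟩ := a
  cases b
  · exact Pool.Agent.Helper10.SP.Wirt.cd_smooth hT hg l
  · exact Pool.Agent.Helper10.SP.Wirt.cdb_smooth hT hg l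

theorem dz_cs {g : Cn n → ℂ} (hg : HasCompactSupport g) (a : Fin n × Bool) :
    HasCompactSupport (dz a g) := by
  obtain ⟨l, b⟩ := a
  cases b
  · exact cd_cs hg l
  · exact cdb_cs hg l

theorem dz_zero_of_nmem {g : Cn n → ℂ} {x : Cn n} (hx : x ∉ tsupport g) (a : Fin n × Bool) :
    dz a g x = 0 := by
  have h1 : g =ᶠ[𝓝 x] fun _ => 0 := notMem_tsupport_iff_eventuallyEq.1 hx
  rw [dz_congr h1]
  obtain ⟨l, b⟩ := a
  cases b
  · exact Pool.Agent.Helper9.SP.cd_zero x l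
  · exact Pool.Agent.Helper9.SP.cdb_zero x l

theorem dz_tsupport (g : Cn n → ℂ) (a : Fin n × Bool) : tsupport (dz a g) ⊆ tsupport g := by
  refine closure_minimal ?_ (isClosed_tsupport g)
  intro x hx
  by_contra h
  exact hx (dz_zero_of_nmem h a)

theorem dz_comm (hT : IsOpen T) {f : Cn n → ℂ} (hf : ContDiffOn ℝ ∞ f T) (a b : Fin n × Bool)
    {x : Cn n} (hx : x ∈ T) : dz a (dz b f) x = dz b (dz a f) x := by
  obtain ⟨_, _, _, _, h, _⟩ := Wirt.wirt T hT f f hf hf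
  obtain ⟨l, p⟩ := a
  obtain ⟨m, q⟩ := b
  obtain ⟨h1, h2, h3⟩ := h l m x hx
  obtain ⟨_, _, h6⟩ := h m l x hx
  cases p <;> cases q
  · exact h1
  · exact h3
  · exact h6.symm
  · exact h2

theorem integral_dz {Y : Cn n → ℂ} (hY : ContDiff ℝ ∞ Y) (hc : HasCompactSupport Y)
    (a : Fin n × Bool) : Integrable (dz a Y) ∧ ∫ x, dz a Y x = 0 := by
  refine ⟨(dz_contDiff hY a).continuous.integrable_of_hasCompactSupport (dz_cs hc a), ?_⟩
  obtain ⟨l, b⟩ := a
  cases b
  · exact (integral_cd hY hc l).2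
  · have h1 : ContDiff ℝ ∞ fun x => conj (Y x) :=
      (Complex.conjCLE : ℂ →L[ℝ] ℂ).contDiff.comp hY
    have h2 : HasCompactSupport fun x => conj (Y x) := hc.comp_left (map_zero _)
    obtain ⟨_, h3⟩ := integral_cd h1 h2 l
    have h4 : ∀ x, dz (l, true) Y x = conj (cd l (fun y => conj (Y y)) x) := by
      intro x
      obtain ⟨_, _, _, h, _⟩ := Wirt.wirt univ isOpen_univ Y Y hY.contDiffOn hY.contDiffOn
      rw [(h l x trivial).1]
      simp [dz_true]
    rw [integral_congr_ae (Eventually.of_forall h4), integral_conj, h3, map_zero]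

/-! ## Test functions -/

theorem tc_mul (hT : IsOpen T) {ψ ζ : Cn n → ℂ} (hψ : ContDiffOn ℝ ∞ ψ T)
    (hζ : TestC T ζ) : TestC T fun x => ψ x * ζ x := by
  obtain ⟨h1, h2, h3⟩ := hζ
  have h4 : ∀ x ∉ tsupport ζ, ψ x * ζ x = 0 := by
    intro x hx
    rw [image_eq_zero_of_notMem_tsupport hx, mul_zero]
  have h5 : tsupport (fun x => ψ x * ζ x) ⊆ tsupport ζ := by
    refine closure_minimal ?_ (isClosed_tsupport ζ)
    intro x hx
    by_contra h
    exact hx (h4 x h)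
  exact ⟨smooth_ext hT (isClosed_tsupport ζ) h3 (hψ.mul h1.contDiffOn) h4,
    HasCompactSupport.of_support_subset_isCompact h2 ((subset_tsupport _).trans h5), h5.trans h3⟩

theorem tc_dz {ζ : Cn n → ℂ} (hζ : TestC T ζ) (a : Fin n × Bool) :
    TestC T (dz a ζ) :=
  ⟨dz_contDiff hζ.1 a, dz_cs hζ.2.1 a, (dz_tsupport ζ a).trans hζ.2.2⟩

theorem tc_zero : TestC T fun _ => (0 : ℂ) :=
  ⟨contDiff_const, HasCompactSupport.zero, by
    have h : tsupport (fun _ : Cn n => (0 : ℂ)) = ∅ := by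
      rw [tsupport_eq_empty_iff]; rfl
    rw [h]
    exact empty_subset _⟩

theorem tc_add {ζ ζ' : Cn n → ℂ} (hζ : TestC T ζ) (hζ' : TestC T ζ') :
    TestC T fun x => ζ x + ζ' x := by
  obtain ⟨h1, h2, h3⟩ := hζ
  obtain ⟨h1', h2', h3'⟩ := hζ'
  exact ⟨h1.add h1', h2.add h2', (tsupport_add ζ ζ').trans (union_subset h3 h3')⟩

theorem tc_sum {ι : Type*} (s : Finset ι) {ζ : ι → Cn n → ℂ} (hζ : ∀ i ∈ s, TestC T (ζ i)) :
    TestC T fun x => ∑ i ∈ s, ζ i x := by
  classical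
  induction s using Finset.induction_on with
  | empty => simpa using tc_zero (T := T)
  | insert a s has ih =>
    simp only [Finset.sum_insert has]
    exact tc_add (hζ a (Finset.mem_insert_self a s))
      (ih fun i hi => hζ i (Finset.mem_insert_of_mem hi))

theorem tc_eq_zero {ζ : Cn n → ℂ} (hζ : TestC T ζ) {x : Cn n} (hx : x ∉ T) : ζ x = 0 :=
  image_eq_zero_of_notMem_tsupport fun h => hx (hζ.2.2 h)

theorem tc_mono {T' : Set (Cn n)} (h : T ⊆ T') {ζ : Cn n → ℂ} (hζ : TestC T ζ) : TestC T' ζ :=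
  ⟨hζ.1, hζ.2.1, hζ.2.2.trans h⟩

/-! ## Locally square integrable functions -/

theorem l2_add {f g : Cn n → ℂ} (hf : L2l T f) (hg : L2l T g) : L2l T fun x => f x + g x :=
  fun C hC hCc => (hf C hC hCc).add (hg C hC hCc)

theorem l2_mul {f ψ : Cn n → ℂ} (hψ : ContinuousOn ψ T) (hf : L2l T f) :
    L2l T fun x => ψ x * f x := by
  intro C hC hCc
  obtain ⟨B, hB⟩ := hCc.exists_bound_of_continuousOn (hψ.mono hC)
  refine MemLp.of_le_mul (c := B) (hf C hC hCc) ?_ ?_
  · exact ((hψ.mono hC).aestronglyMeasurable hCc.measurableSet).mul (hf C hC hCc).1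
  · rw [ae_restrict_iff' hCc.measurableSet]
    refine Eventually.of_forall fun x hx => ?_
    rw [norm_mul]
    exact mul_le_mul_of_nonneg_right (hB x hx) (norm_nonneg _)

theorem l2_cont {ψ : Cn n → ℂ} (hψ : ContinuousOn ψ T) : L2l T ψ := by
  have h1 : L2l T fun _ : Cn n => (1 : ℂ) := by
    intro C hC hCc
    have : IsFiniteMeasure (volume.restrict C) :=
      ⟨by rw [Measure.restrict_apply_univ]; exact hCc.measure_lt_top⟩
    exact memLp_const 1
  simpa using l2_mul hψ h1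

theorem l2_int {f : Cn n → ℂ} (hf : L2l T f) {C : Set (Cn n)} (hC : C ⊆ T)
    (hCc : IsCompact C) : IntegrableOn f C := by
  have : IsFiniteMeasure (volume.restrict C) :=
    ⟨by rw [Measure.restrict_apply_univ]; exact hCc.measure_lt_top⟩
  exact (hf C hC hCc).integrable one_le_two

theorem l2_test (hT : IsOpen T) {f ζ : Cn n → ℂ} (hf : L2l T f) (hζ : TestC T ζ) :
    IntegrableOn (fun x => f x * ζ x) T := by
  have h1 : IntegrableOn (fun x => f x * ζ x) (tsupport ζ) :=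
    (l2_int hf hζ.2.2 hζ.2.1).mul_continuousOn hζ.1.continuous.continuousOn hζ.2.1
  refine h1.of_forall_sdiff_eq_zero hT.measurableSet ?_
  rintro x ⟨_, hx⟩
  rw [image_eq_zero_of_notMem_tsupport hx, mul_zero]

/-! ## Weak derivatives -/

theorem dAtOn (hT : IsOpen T) {ψ : Cn n → ℂ} (hψ : ContDiffOn ℝ ∞ ψ T) {x : Cn n} (hx : x ∈ T) :
    DifferentiableAt ℝ ψ x := Pool.Agent.Helper10.SP.Wirt.dAt hT hψ hx

theorem wd_add (hT : IsOpen T) {a : Fin n × Bool} {f g f' g' : Cn n → ℂ} (hf : L2l T f)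
    (hg : L2l T g) (hf' : L2l T f') (hg' : L2l T g') (h : WD T a f g) (h' : WD T a f' g') :
    WD T a (fun x => f x + f' x) fun x => g x + g' x := by
  intro ζ hζ
  have e1 : ∫ x in T, (f x + f' x) * dz a ζ x =
      (∫ x in T, f x * dz a ζ x) + ∫ x in T, f' x * dz a ζ x := by
    rw [← integral_add (l2_test hT hf (tc_dz hζ a)) (l2_test hT hf' (tc_dz hζ a))]
    exact integral_congr_ae (Eventually.of_forall fun x => by ring)
  have e2 : ∫ x in T, (g x + g' x) * ζ x =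
      (∫ x in T, g x * ζ x) + ∫ x in T, g' x * ζ x := by
    rw [← integral_add (l2_test hT hg hζ) (l2_test hT hg' hζ)]
    exact integral_congr_ae (Eventually.of_forall fun x => by ring)
  rw [e1, e2, h ζ hζ, h' ζ hζ]
  ring

/-- The product rule for weak derivatives, for a more general class of test functions. -/
theorem wd_mul_aux (hT : IsOpen T) {a : Fin n × Bool} {f g ψ ζ : Cn n → ℂ}
    (hψ : ContDiffOn ℝ ∞ ψ T) (hζ : ContDiffOn ℝ ∞ ζ T) (hψζ : TestC T fun x => ψ x * ζ x)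
    (h1 : TestC T fun x => dz a ψ x * ζ x) (h2 : TestC T fun x => ψ x * dz a ζ x)
    (hf : L2l T f) (hg : L2l T g) (h : WD T a f g) :
    ∫ x in T, ψ x * f x * dz a ζ x = - ∫ x in T, (ψ x * g x + dz a ψ x * f x) * ζ x := by
  have e0 : ∫ x in T, f x * dz a (fun y => ψ y * ζ y) x =
      (∫ x in T, f x * (ψ x * dz a ζ x)) + ∫ x in T, f x * (dz a ψ x * ζ x) := by
    rw [← integral_add (l2_test hT hf h2) (l2_test hT hf h1)]
    refine setIntegral_congr_fun hT.measurableSet fun x hx => ?_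
    show f x * dz a (fun y => ψ y * ζ y) x = f x * (ψ x * dz a ζ x) + f x * (dz a ψ x * ζ x)
    rw [dz_mul (dAtOn hT hψ hx) (dAtOn hT hζ hx)]
    ring
  have e1 : ∫ x in T, ψ x * f x * dz a ζ x = ∫ x in T, f x * (ψ x * dz a ζ x) :=
    integral_congr_ae (Eventually.of_forall fun x => by ring)
  have e2 : ∫ x in T, (ψ x * g x + dz a ψ x * f x) * ζ x =
      (∫ x in T, g x * (ψ x * ζ x)) + ∫ x in T, f x * (dz a ψ x * ζ x) := by
    rw [← integral_add (l2_test hT hg hψζ) (l2_test hT hf h1)]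
    exact integral_congr_ae (Eventually.of_forall fun x => by ring)
  have e3 := h _ hψζ
  rw [e0] at e3
  rw [e1, e2]
  linear_combination e3

theorem wd_mul (hT : IsOpen T) {a : Fin n × Bool} {f g ψ : Cn n → ℂ}
    (hψ : ContDiffOn ℝ ∞ ψ T) (hf : L2l T f) (hg : L2l T g) (h : WD T a f g) :
    WD T a (fun x => ψ x * f x) fun x => ψ x * g x + dz a ψ x * f x := fun _ hζ =>
  wd_mul_aux hT hψ hζ.1.contDiffOn (tc_mul hT hψ hζ)
    (tc_mul hT (dz_contDiffOn hT hψ a) hζ) (tc_mul hT hψ (tc_dz hζ a)) hf hg h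

theorem wd_smooth (hT : IsOpen T) (a : Fin n × Bool) {ψ : Cn n → ℂ} (hψ : ContDiffOn ℝ ∞ ψ T) :
    WD T a ψ (dz a ψ) := by
  intro ζ hζ
  have h1 := tc_mul hT hψ hζ
  have h2 := (integral_dz h1.1 h1.2.1 a).2
  have h3 : ∫ x in T, dz a (fun y => ψ y * ζ y) x = 0 := by
    rw [setIntegral_eq_integral_of_forall_compl_eq_zero fun x hx => tc_eq_zero (tc_dz h1 a) hx]
    exact h2
  have hψl : L2l T ψ := l2_cont hψ.continuousOn
  have hψl' : L2l T (dz a ψ) := l2_cont (dz_contDiffOn hT hψ a).continuousOn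
  have h4 : ∫ x in T, dz a (fun y => ψ y * ζ y) x =
      (∫ x in T, ψ x * dz a ζ x) + ∫ x in T, dz a ψ x * ζ x := by
    rw [← integral_add (l2_test hT hψl (tc_dz hζ a)) (l2_test hT hψl' hζ)]
    refine setIntegral_congr_fun hT.measurableSet fun x hx => ?_
    show dz a (fun y => ψ y * ζ y) x = ψ x * dz a ζ x + dz a ψ x * ζ x
    rw [dz_mul (dAtOn hT hψ hx) (dAtOn hT hζ.1.contDiffOn hx)]
    ring
  rw [h4] at h3
  linear_combination h3

/-! ## Functions with many weak derivatives -/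

theorem hl_l2 {m : ℕ} {f : Cn n → ℂ} (h : HL T m f) : L2l T f := by
  cases m with
  | zero => exact h
  | succ m => exact h.1

theorem hl_of_succ {m : ℕ} {f : Cn n → ℂ} (h : HL T (m + 1) f) : HL T m f := by
  induction m generalizing f with
  | zero => exact h.1
  | succ m ih =>
    refine ⟨h.1, fun a => ?_⟩
    obtain ⟨g, hg, hfg⟩ := h.2 a
    exact ⟨g, ih hg, hfg⟩

theorem hl_add (hT : IsOpen T) {m : ℕ} {f g : Cn n → ℂ} (hf : HL T m f) (hg : HL T m g) :
    HL T m fun x => f x + g x := by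
  induction m generalizing f g with
  | zero => exact l2_add hf hg
  | succ m ih =>
    refine ⟨l2_add hf.1 hg.1, fun a => ?_⟩
    obtain ⟨f', hf', hff'⟩ := hf.2 a
    obtain ⟨g', hg', hgg'⟩ := hg.2 a
    exact ⟨_, ih hf' hg', wd_add hT hf.1 (hl_l2 hf') hg.1 (hl_l2 hg') hff' hgg'⟩

theorem hl_mul (hT : IsOpen T) {m : ℕ} {f ψ : Cn n → ℂ} (hψ : ContDiffOn ℝ ∞ ψ T)
    (hf : HL T m f) : HL T m fun x => ψ x * f x := by
  induction m generalizing f ψ with
  | zero => exact l2_mul hψ.continuousOn hf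
  | succ m ih =>
    refine ⟨l2_mul hψ.continuousOn hf.1, fun a => ?_⟩
    obtain ⟨g, hg, hfg⟩ := hf.2 a
    exact ⟨_, hl_add hT (ih hψ hg) (ih (dz_contDiffOn hT hψ a) (hl_of_succ hf)),
      wd_mul hT hψ hf.1 (hl_l2 hg) hfg⟩

theorem hl_smooth (hT : IsOpen T) (m : ℕ) {ψ : Cn n → ℂ} (hψ : ContDiffOn ℝ ∞ ψ T) :
    HL T m ψ := by
  induction m generalizing ψ with
  | zero => exact l2_cont hψ.continuousOn
  | succ m ih =>
    exact ⟨l2_cont hψ.continuousOn, fun a =>
      ⟨_, ih (dz_contDiffOn hT hψ a), wd_smooth hT a hψ⟩⟩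

/-- Packet HLA. -/
theorem hla : S_HLA := by
  intro n T hT
  exact ⟨fun m f h => (hl_of_succ h), fun m f g hf hg => hl_add hT hf hg,
    fun a f g f' g' hf hg hf' hg' h h' => wd_add hT hf hg hf' hg' h h',
    fun a f g ψ hψ hf hg h => wd_mul hT hψ hf hg h, fun m f ψ hψ hf => hl_mul hT hψ hf,
    fun a ψ hψ => wd_smooth hT a hψ, fun m ψ hψ => hl_smooth hT m hψ⟩

end Pool.Agent.Helper61.HS
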